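import Pool.Agent.Lib.MP_df705a_gt.SV.St

/-!
# NV, F9a: the manifold is a Hausdorff space

PROOF. Let `p ≠ p'` in `M`. By `surj` there are `y, y'` with `q y = p, s y = 0` and `q y' = p', s y' = 0`. No `γ` maps `y` to
`y'` (`ha.cover`: `q (γ y) = q y`). Let `R = ‖y‖ + ‖y'‖ + 1`; the set `S` of `γ` with `‖z‖ ≤ R, ‖γ z‖ ≤ R` for some `z` is
finite. For each `γ ∈ S`, `γ y ≠ y'`, so there are neighbourhoods of `y, y'` with disjoint `γ O`, `O'`; intersecting
them and the balls of radius 1 we get open `O ∋ y`, `O' ∋ y'` such that `γ z ∉ O'` for all `γ : G`, `z ∈ O`. Let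
`W = {x : M | (x, 0) ∈ (q, s) '' O}` and `W'` in the same way with `O'`: they are open (`hopen`, preimage of an open set
by `x ↦ (x, 0)`), `p ∈ W`, `p' ∈ W'`. If `x ∈ W ∩ W'`: `(x, 0) = (q z, s z) = (q z', s z')`, `z ∈ O`, `z' ∈ O'`; by
`ha.trans z z'` (with `c = 0`) some `γ` maps `z` to `z'`, a contradiction. `t2Space_iff`/`T2Space.mk`.
-/

open scoped ContDiff Topology Manifold
open MeasureTheory

noncomputable section

namespace Pool.Agent.Lib.MP_df705a_gt.NV

open Pool.Agent.Lib.MP_df705a_gt.SVS (V pd jdet)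
open Pool.Agent.Lib.MP_df705a_gt

variable {N : ℕ} {G : Type*} [Group G]

theorem t2_of_proper {k : ℕ} {M : Type*} [TopologicalSpace M] {q : V N → M} {s : V N → V k}
    (hopen : IsOpenMap fun y => (q y, s y)) (surj : Function.Surjective fun y => (q y, s y))
    {a : SVS.Act G N} (ha : SVS.Deck a q s)
    (prop : ∀ R : ℝ, {γ | ∃ y, ‖y‖ ≤ R ∧ ‖a.act γ y‖ ≤ R}.Finite) : T2Space M := by
  refine ⟨fun p p' hne => ?_⟩
  obtain ⟨y, hy⟩ := surj (p, 0)
  obtain ⟨y', hy'⟩ := surj (p', 0)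
  have hqy : q y = p := congrArg Prod.fst hy
  have hqy' : q y' = p' := congrArg Prod.fst hy'
  have hγ : ∀ γ : G, a.act γ y ≠ y' := by
    intro γ h
    obtain ⟨c, hc⟩ := ha.cover γ
    apply hne
    rw [← hqy, ← hqy', ← h]
    exact (hc y).1.symm
  have hsep : ∀ γ : G, ∃ A B : Set (V N), IsOpen A ∧ IsOpen B ∧ a.act γ y ∈ A ∧ y' ∈ B ∧
      Disjoint A B := fun γ => t2_separation (hγ γ)
  choose A B hA hB hyA hyB hAB using hsep
  set R : ℝ := ‖y‖ + ‖y'‖ + 1 with hR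
  have hS := prop R
  set S : Set G := {γ | ∃ y, ‖y‖ ≤ R ∧ ‖a.act γ y‖ ≤ R} with hSdef
  set O : Set (V N) := Metric.ball y 1 ∩ ⋂ γ ∈ S, a.act γ ⁻¹' A γ with hO
  set O' : Set (V N) := Metric.ball y' 1 ∩ ⋂ γ ∈ S, B γ with hO'
  have hOo : IsOpen O := Metric.isOpen_ball.inter
    (hS.isOpen_biInter fun γ _ => (hA γ).preimage (a.smooth γ).continuous)
  have hOo' : IsOpen O' := Metric.isOpen_ball.inter (hS.isOpen_biInter fun γ _ => hB γ)
  have hyO : y ∈ O := by
    refine ⟨Metric.mem_ball_self one_pos, ?_⟩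
    simp only [Set.mem_iInter]
    exact fun γ _ => hyA γ
  have hyO' : y' ∈ O' := by
    refine ⟨Metric.mem_ball_self one_pos, ?_⟩
    simp only [Set.mem_iInter]
    exact fun γ _ => hyB γ
  have key : ∀ (γ : G), ∀ z ∈ O, a.act γ z ∉ O' := by
    intro γ z hz hz'
    obtain ⟨hz1, hz2⟩ := hz
    obtain ⟨hz3, hz4⟩ := hz'
    simp only [Set.mem_iInter] at hz2 hz4
    by_cases hγS : γ ∈ S
    · exact Set.disjoint_left.mp (hAB γ) (hz2 γ hγS) (hz4 γ hγS)
    · apply hγS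
      refine ⟨z, ?_, ?_⟩
      · have h1 : ‖z - y‖ < 1 := by
          rw [← dist_eq_norm]
          exact hz1
        have h2 : ‖z‖ ≤ ‖z - y‖ + ‖y‖ := by
          have := norm_add_le (z - y) y
          rwa [sub_add_cancel] at this
        have h3 : 0 ≤ ‖y'‖ := norm_nonneg _
        linarith
      · have h1 : ‖a.act γ z - y'‖ < 1 := by
          rw [← dist_eq_norm]
          exact hz3
        have h2 : ‖a.act γ z‖ ≤ ‖a.act γ z - y'‖ + ‖y'‖ := by
          have := norm_add_le (a.act γ z - y') y'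
          rwa [sub_add_cancel] at this
        have h3 : 0 ≤ ‖y‖ := norm_nonneg _
        linarith
  refine ⟨{x | (x, (0 : V k)) ∈ (fun y => (q y, s y)) '' O},
    {x | (x, (0 : V k)) ∈ (fun y => (q y, s y)) '' O'}, ?_, ?_, ?_, ?_, ?_⟩
  · exact (hopen O hOo).preimage (Continuous.prodMk_left (0 : V k))
  · exact (hopen O' hOo').preimage (Continuous.prodMk_left (0 : V k))
  · exact ⟨y, hyO, hy⟩
  · exact ⟨y', hyO', hy'⟩
  · rw [Set.disjoint_left]
    rintro x ⟨z, hz, hzx⟩ ⟨z', hz', hzx'⟩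
    have h1 : q z = x := congrArg Prod.fst hzx
    have h2 : s z = 0 := congrArg Prod.snd hzx
    have h3 : q z' = x := congrArg Prod.fst hzx'
    have h4 : s z' = 0 := congrArg Prod.snd hzx'
    obtain ⟨γ, hγz, -⟩ := ha.trans z z' (by rw [h1, h3])
      (fun j => ⟨0, by rw [h2, h4]; simp⟩)
    apply key γ z hz
    rw [hγz]
    exact hz'

end Pool.Agent.Lib.MP_df705a_gt.NV
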