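import Pool.Agent.Lib.MP_df705a_gt.Mg.G094
import Pool.Agent.Lib.MP_df705a_gt.NV.F9a
import Pool.Agent.Lib.MP_df705a_gt.Mg.G095
import Pool.Agent.Lib.MP_df705a_gt.Mg.G090

/-!
# NV, F11: a cocycle which does not vanish on the fundamental cycle

PROOF. `T2Space M` by `t2_of_proper`. `exists_chart_fns hq 0`, then `exists_form` with
`K y v = (mfderiv q y v = 0)` (`hinj` from `hbij`: `(0, 0)` is the image of `0`), the form `w`. `Setup a χ s w n`
(`sadd`: from `ha.cover`, the vector with the integer coordinates `c`). `T = ∫ χ top (wds k (co s) w) > 0` by `int_pos`: invariance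
by `top_pull`, `pull_wds`, `pull (a.act γ) w = w` and `s (γ y) = s y + c`. `c = cc a w n`; `cc_inv`, `cc_coc`,
`pairing_ne`; `fund a χ s e h = ∫ χ top (wds n (fun i => tr a χ (h i)) (wds k (co s) one))` by `top_wds_one`
(`SVS.fns` is `Fin.addCases` of the same functions), `smp h = Fin.cons 1 h`.
-/

open scoped ContDiff Topology Manifold
open MeasureTheory

noncomputable section

namespace Pool.Agent.Lib.MP_df705a_gt.NV

open Pool.Agent.Lib.MP_df705a_gt.SVS (V pd jdet)
open Pool.Agent.Lib.MP_df705a_gt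

variable {N : ℕ} {G : Type*} [Group G]

theorem exists_cocycle {n k m : ℕ} {M : Type*} [TopologicalSpace M] [ChartedSpace (V n) M]
    [IsManifold 𝓘(ℝ, V n) ∞ M] {q : V (2 * m) → M} {s : V (2 * m) → V k}
    (hq : ContMDiff 𝓘(ℝ, V (2 * m)) 𝓘(ℝ, V n) ∞ q) (hs : ContDiff ℝ ∞ s)
    (hopen : IsOpenMap fun y => (q y, s y)) (surj : Function.Surjective fun y => (q y, s y))
    (hbij : ∀ y, Function.Bijective fun v : V (2 * m) =>
      ((mfderiv 𝓘(ℝ, V (2 * m)) 𝓘(ℝ, V n) q y v : V n), fderiv ℝ s y v))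
    (e : n + k = 2 * m) {a : SVS.Act G (2 * m)} (ha : SVS.Deck a q s)
    (ori : ∀ γ y, 0 < jdet (a.act γ) y)
    (prop : ∀ R : ℝ, {γ | ∃ y, ‖y‖ ≤ R ∧ ‖a.act γ y‖ ≤ R}.Finite)
    {χ : V (2 * m) → ℝ} (hχ : SVS.IsPart a χ) (h0 : ∀ y, 0 ≤ χ y) :
    ∃ c : (Fin (n + 1) → G) → ℝ, (∀ γ g, c (fun i => γ * g i) = c g) ∧
      (∀ g : Fin (n + 2) → G,
        ∑ i : Fin (n + 2), (-1 : ℝ) ^ (i : ℕ) * c (fun j => g (i.succAbove j)) = 0) ∧
      ∑ᶠ h, SVS.fund a χ s e h * c (SVS.smp h) ≠ 0 := by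
  have : T2Space M := t2_of_proper hopen surj ha prop
  obtain ⟨r, U, hr, hUs, hqU, hr0, hr00, hb, hUK⟩ := exists_chart_fns hq (0 : V (2 * m))
  have hcov : ∀ γ, ∃ c : V k, ∀ y, q (a.act γ y) = q y ∧ s (a.act γ y) = s y + c := by
    intro γ
    obtain ⟨c, hc⟩ := ha.cover γ
    refine ⟨WithLp.toLp 2 (fun j => (c j : ℝ)), fun y => ⟨(hc y).1, ?_⟩⟩
    ext j
    rw [(hc y).2 j]
    rfl
  have hact : ∀ γ y, r (a.act γ y) = r y ∧ ∀ i, U i (a.act γ y) = U i y := by
    intro γ y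
    obtain ⟨c, hc⟩ := hcov γ
    exact hqU _ _ (hc y).1
  have hadd : ∀ γ, ∃ c, ∀ y, s (a.act γ y) = s y + c := by
    intro γ
    obtain ⟨c, hc⟩ := hcov γ
    exact ⟨c, fun y => (hc y).2⟩
  have hinj : ∀ y v, (mfderiv 𝓘(ℝ, V (2 * m)) 𝓘(ℝ, V n) q y v : V n) = 0 →
      fderiv ℝ s y v = 0 → v = 0 := by
    intro y v h1 h2
    apply (hbij y).1
    show ((mfderiv 𝓘(ℝ, V (2 * m)) 𝓘(ℝ, V n) q y v : V n), fderiv ℝ s y v) =
      ((mfderiv 𝓘(ℝ, V (2 * m)) 𝓘(ℝ, V n) q y (0 : V (2 * m)) : V n), fderiv ℝ s y 0)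
    rw [h1, h2, map_zero]
    exact Prod.ext (map_zero (mfderiv 𝓘(ℝ, V (2 * m)) 𝓘(ℝ, V n) q y)).symm rfl
  obtain ⟨w, wsm, wcl, winv, wdeg, wnn, y₁, wpos⟩ := exists_form e hs
    (K := fun y v => (mfderiv 𝓘(ℝ, V (2 * m)) 𝓘(ℝ, V n) q y v : V n) = 0) (y₀ := 0)
    hr hUs hr0 hr00 hb hUK hinj a hact hadd ori
  have H : Setup a χ s w n :=
    { chi := hχ.smooth
      supp := hχ.supp
      sum := hχ.sum
      prop := prop
      ori := ori
      ss := hs
      sadd := hadd
      sm := wsm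
      closed := wcl
      inv := winv
      deg := wdeg }
  have hco : ∀ j : Fin k, ContDiff ℝ ∞ (co s j) := by
    intro j
    exact (contDiff_euclidean.1 hs) j
  have hF : Continuous fun y => top (wds k (co s) w) y := (Sm.wds wsm hco).top.continuous
  have hT : 0 < ∫ y, χ y * top (wds k (co s) w) y := by
    refine int_pos (a := a) hχ.smooth.continuous hχ.supp hχ.sum h0 hF wnn ?_ ori wpos
    intro γ y
    obtain ⟨c, hc⟩ := hadd γ
    rw [← top_pull (a.smooth γ), pull_wds (a.smooth γ) hco, winv γ]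
    have : (wds k (fun i y => co s i (a.act γ y)) w) = wds k (co s) w := by
      funext j x
      have : (fun i : Fin k => fderiv ℝ (fun y => co s i (a.act γ y)) x) =
          fun i : Fin k => fderiv ℝ (co s i) x := by
        funext i
        have e1 : (fun y => co s i (a.act γ y)) = fun y => co s i y + c i := by
          funext y
          show s (a.act γ y) i = s y i + c i
          rw [hc y]
          rfl
        rw [e1, fderiv_add_const]
      show wcs k (fun i : Fin k => fderiv ℝ (fun y => co s i (a.act γ y)) x) _ j = _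
      rw [this]
      rfl
    rw [this]
  refine ⟨cc a w n, fun γ g => cc_inv a wsm winv γ g, fun g => cc_coc a wsm wcl wdeg g, ?_⟩
  have hp := pairing_ne H hT.ne'
  have hf : ∀ h : Fin n → G, SVS.fund a χ s e h * cc a w n (SVS.smp h) =
      (∫ y, χ y * top (wds n (fun i => tr a χ (h i)) (wds k (co s) one)) y) *
        cc a w n (Fin.cons 1 h) := by
    intro h
    have : SVS.fund a χ s e h =
        ∫ y, χ y * top (wds n (fun i => tr a χ (h i)) (wds k (co s) one)) y := by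
      unfold SVS.fund
      congr 1
      funext y
      rw [top_wds_one e]
      rfl
    rw [this]
    rfl
  rw [finsum_congr hf]
  exact hp

end Pool.Agent.Lib.MP_df705a_gt.NV
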