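import Pool.Agent.Lib.MP_df705a_gt.Mg.G092
import Pool.Agent.Lib.MP_df705a_gt.Mg.G090

/-! # NV, F1b: calculus of forms -/
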