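import Pool.Agent.Lib.MP_df705a_gt.Mg.G092

/-! # NV, F8d: the step `p → p + 1` -/
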